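import Mathlib

open MvPolynomial

namespace Pool.Agent.Helper72.IM

private lemma pderiv_comm' {m : ℕ} (i j : Fin m) (F : MvPolynomial (Fin m) ℂ) :
    pderiv i (pderiv j F) = pderiv j (pderiv i F) := by
  have h := congrArg (fun D => D F)
    (derivation_ext (D₁ := ⁅pderiv (R := ℂ) i, pderiv (R := ℂ) j⁆) (D₂ := 0) (fun k => by
      rw [Derivation.commutator_apply]
      simp only [pderiv_X, Pi.single_apply]
      split_ifs <;> simp))
  simp only [Derivation.commutator_apply] at h
  exact sub_eq_zero.mp h

private lemma euler_eval {m n : ℕ} {G : MvPolynomial (Fin m) ℂ} (hG : G.IsHomogeneous n)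
    (z : Fin m → ℂ) : ∑ k, z k * eval z (pderiv k G) = n * eval z G := by
  have h := congrArg (eval z) hG.sum_X_mul_pderiv
  simpa [map_sum] using h

private lemma eval_const {m : ℕ} {G : MvPolynomial (Fin m) ℂ} (hG : G.IsHomogeneous 0)
    (z w : Fin m → ℂ) : eval z G = eval w G := by
  rw [totalDegree_eq_zero_iff_eq_C.mp (Nat.le_zero.mp hG.totalDegree_le)]
  simp

/-- IM-CU. -/
theorem cubic_line {m : ℕ} (F : MvPolynomial (Fin m) ℂ) (hF : F.IsHomogeneous 3) (e : Fin m → ℂ)
    (he : ∀ i, eval e (pderiv i F) = 0) (z : Fin m → ℂ) :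
    ∑ i, ∑ j, e i * e j * eval z (pderiv j (pderiv i F)) = 0 := by
  have h1 : ∀ i, (pderiv i F).IsHomogeneous 2 := fun i => hF.pderiv
  have h2 : ∀ i j, (pderiv j (pderiv i F)).IsHomogeneous 1 := fun i j => (h1 i).pderiv
  have h3 : ∀ i j k, (pderiv k (pderiv j (pderiv i F))).IsHomogeneous 0 :=
    fun i j k => (h2 i j).pderiv
  have hz : ∀ i j, eval z (pderiv j (pderiv i F)) =
      ∑ k, z k * eval e (pderiv j (pderiv i (pderiv k F))) := by
    intro i j
    have := euler_eval (h2 i j) z
    simp only [Nat.cast_one, one_mul] at this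
    rw [← this]
    refine Finset.sum_congr rfl fun k _ => ?_
    rw [eval_const (h3 i j k) z e, pderiv_comm' k j, pderiv_comm' k i]
  have hk : ∀ k, ∑ i, ∑ j, e i * e j * eval e (pderiv j (pderiv i (pderiv k F))) = 0 := by
    intro k
    have : ∀ i, ∑ j, e i * e j * eval e (pderiv j (pderiv i (pderiv k F))) =
        e i * eval e (pderiv i (pderiv k F)) := by
      intro i
      have := euler_eval (h2 k i) e
      simp only [Nat.cast_one, one_mul] at this
      rw [← this, Finset.mul_sum]
      exact Finset.sum_congr rfl fun j _ => by ring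
    rw [Finset.sum_congr rfl fun i _ => this i, euler_eval (h1 k) e, he k, mul_zero]
  calc ∑ i, ∑ j, e i * e j * eval z (pderiv j (pderiv i F))
      = ∑ i, ∑ j, ∑ k, z k * (e i * e j * eval e (pderiv j (pderiv i (pderiv k F)))) := by
        refine Finset.sum_congr rfl fun i _ => Finset.sum_congr rfl fun j _ => ?_
        rw [hz i j, Finset.mul_sum]
        exact Finset.sum_congr rfl fun k _ => by ring
    _ = ∑ k, z k * ∑ i, ∑ j, e i * e j * eval e (pderiv j (pderiv i (pderiv k F))) := by
        simp only [Finset.mul_sum]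
        rw [Finset.sum_congr rfl fun i _ => Finset.sum_comm]
        rw [Finset.sum_comm]
    _ = 0 := by simp [hk]

end Pool.Agent.Helper72.IM
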